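import Pool.Agent.TH84.SF.Spec

set_option autoImplicit false

namespace Pool.Agent.T9h56.SF

open Pool.Agent.TH84.SF

/-- gluing `xs` on `B` and `x` off `B * Δ` -/
theorem glue {G A : Type} [Group G] [Finite A] [TopologicalSpace A] [DiscreteTopology A]
    (X : Set (G → A)) (hX : IsClosed X) (Δ B : Finset G)
    (hΔ : ∀ Ω₁ Ω₂ : Finset G, (∀ w ∈ Ω₁, ∀ d ∈ Δ, w * d ∉ Ω₂) →
      ∀ x₁ ∈ X, ∀ x₂ ∈ X, ∃ z ∈ X, (∀ w ∈ Ω₁, z w = x₁ w) ∧ (∀ w ∈ Ω₂, z w = x₂ w))
    (xs x : G → A) (hxs : xs ∈ X) (hx : x ∈ X) :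
    ∃ z ∈ X, (∀ w ∈ B, z w = xs w) ∧ ∀ g, (∀ w ∈ B, ∀ d ∈ Δ, w * d ≠ g) → z g = x g := by
  classical
  have hc : IsCompact (X ∩ {z | ∀ w ∈ B, z w = xs w}) := by
    apply IsClosed.isCompact
    refine hX.inter ?_
    have h1 : {z : G → A | ∀ w ∈ B, z w = xs w} = ⋂ w ∈ B, {z | z w = xs w} := by
      ext
      simp
    rw [h1]
    exact isClosed_biInter fun w _ => isClosed_eq (continuous_apply w) continuous_const
  have h := hc.inter_iInter_nonempty
    (fun g : {g : G // ∀ w ∈ B, ∀ d ∈ Δ, w * d ≠ g} => {z : G → A | z g.1 = x g.1})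
    (fun g => isClosed_eq (continuous_apply _) continuous_const) ?_
  · obtain ⟨z, ⟨hz, hz1⟩, hz2⟩ := h
    exact ⟨z, hz, hz1, fun g hg => Set.mem_iInter.1 hz2 ⟨g, hg⟩⟩
  · intro u
    obtain ⟨z, hz, h1, h2⟩ := hΔ B (u.image Subtype.val) (by
      intro w hw d hd hmem
      obtain ⟨g, hg, hgw⟩ := Finset.mem_image.1 hmem
      exact g.2 w hw d hd hgw.symm) xs hxs x hx
    refine ⟨z, ⟨hz, h1⟩, ?_⟩
    simp only [Set.mem_iInter]
    intro i hi
    exact h2 _ (Finset.mem_image_of_mem _ hi)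

/-- (F2) strong irreducibility and a safe symbol -/
theorem sF2 : S_F2 := by
  classical
  intro G A _ _ _ _ X hX hirr hsafe xs hxs B
  obtain ⟨Δ, hΔ⟩ := hirr
  obtain ⟨o, ho⟩ := hsafe
  set E : Finset G := B ∪ (B ×ˢ Δ).image (fun p => p.1 * p.2) with hE
  refine ⟨E, E, fun _ g => if g ∈ B then xs g else o, ?_⟩
  constructor
  · exact Finset.subset_union_left
  · exact Finset.Subset.refl _
  · intro x y _ e _
    rfl
  · intro x hx z hz1 hz2
    obtain ⟨y, hy, hy1, hy2⟩ := glue X hX Δ B hΔ xs x hxs hx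
    refine ho y hy z fun g => ?_
    by_cases hg : g ∈ E
    · rw [hz1 g hg]
      by_cases hB : g ∈ B
      · left
        simp only [if_pos hB]
        exact (hy1 g hB).symm
      · right
        simp only [if_neg hB]
    · left
      rw [hz2 g hg]
      refine (hy2 g ?_).symm
      intro w hw d hd hwd
      exact hg (Finset.mem_union_right _ (Finset.mem_image.2
        ⟨(w, d), Finset.mem_product.2 ⟨hw, hd⟩, hwd⟩))
  · intro x b hb
    simp only [if_pos hb]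

end Pool.Agent.T9h56.SF
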