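import Pool.Agent.TH84.SF.Spec

set_option autoImplicit false

namespace Pool.Agent.T9h56.SF

open Pool.Agent.TH84.SF

/-- (P) a maximal packing -/
theorem sP : S_P := by
  classical
  intro G V _ _ s E' U hE
  obtain ⟨e0, he0⟩ := hE
  let Q : Finset V → Prop := fun S => (∀ v ∈ S, v ∉ U) ∧
    ∀ v ∈ S, ∀ v' ∈ S, ∀ e ∈ E', ∀ e' ∈ E', s e v = s e' v' → v = v'
  obtain ⟨S, hS, hmax⟩ := Finset.exists_max_image ((Finset.univ : Finset (Finset V)).filter Q)
    Finset.card ⟨∅, Finset.mem_filter.2 ⟨Finset.mem_univ _,
      fun v hv => absurd hv (Finset.notMem_empty v),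
      fun v hv => absurd hv (Finset.notMem_empty v)⟩⟩
  have hQ : Q S := (Finset.mem_filter.1 hS).2
  refine ⟨S, hQ.1, hQ.2, ?_⟩
  have hkey : ∀ v, v ∉ U → ∃ e ∈ E', ∃ e' ∈ E', ∃ v' ∈ S, s e v = s e' v' := by
    intro v hv
    by_contra hcon
    push Not at hcon
    have hvS : v ∉ S := fun h => hcon e0 he0 e0 he0 v h rfl
    have hins : Q (insert v S) := by
      constructor
      · intro w hw
        rcases Finset.mem_insert.1 hw with rfl | hw
        · exact hv
        · exact hQ.1 w hw
      · intro w hw w' hw' e he e' he' h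
        rcases Finset.mem_insert.1 hw with h1 | h1
        · rcases Finset.mem_insert.1 hw' with h2 | h2
          · rw [h1, h2]
          · rw [h1] at h
            exact absurd h (hcon e he e' he' w' h2)
        · rcases Finset.mem_insert.1 hw' with h2 | h2
          · rw [h2] at h
            exact absurd h.symm (hcon e' he' e he w h1)
          · exact hQ.2 w h1 w' h2 e he e' he' h
    have h1 := hmax _ (Finset.mem_filter.2 ⟨Finset.mem_univ _, hins⟩)
    rw [Finset.card_insert_of_notMem hvS] at h1
    omega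
  have hsub : (Finset.univ : Finset V) ⊆ U ∪
      ((E' ×ˢ E') ×ˢ S).image (fun p => (s p.1.1).symm (s p.1.2 p.2)) := by
    intro v _
    by_cases hv : v ∈ U
    · exact Finset.mem_union_left _ hv
    · obtain ⟨e, he, e', he', v', hv', h⟩ := hkey v hv
      refine Finset.mem_union_right _ (Finset.mem_image.2 ⟨((e, e'), v'),
        Finset.mem_product.2 ⟨Finset.mem_product.2 ⟨he, he'⟩, hv'⟩, ?_⟩)
      show (s e).symm (s e' v') = v
      rw [← h, Equiv.symm_apply_apply]
  calc Fintype.card V = (Finset.univ : Finset V).card := Finset.card_univ.symm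
    _ ≤ _ := Finset.card_le_card hsub
    _ ≤ _ := Finset.card_union_le _ _
    _ ≤ U.card + ((E' ×ˢ E') ×ˢ S).card := Nat.add_le_add_left Finset.card_image_le _
    _ = U.card + E'.card ^ 2 * S.card := by
        rw [Finset.card_product, Finset.card_product]
        ring

end Pool.Agent.T9h56.SF
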